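import Mathlib

/-!
# Elementary free groups: definitions
-/

open FirstOrder FirstOrder.Language

namespace Pool.Agent.EFree

/-- The function symbols of the language of groups: multiplication (binary), inverse (unary) and
the identity (a constant). -/
inductive GroupOp : ℕ → Type
  | mul : GroupOp 2
  | inv : GroupOp 1
  | one : GroupOp 0

/-- The first-order language of groups `{·, ⁻¹, 1}`; it has no relation symbols (equality is a
logical symbol). -/
def LGroup : Language := ⟨GroupOp, fun _ => Empty⟩

/-- A group as a structure for the language of groups: the symbols get their usual meaning. -/
@[reducible] def groupStructure (G : Type*) [Group G] : LGroup.Structure G where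
  funMap := fun f x => match f with
    | GroupOp.mul => x 0 * x 1
    | GroupOp.inv => (x 0)⁻¹
    | GroupOp.one => 1
  RelMap := fun r _ => nomatch r

/-- `G` is an elementary free group: it satisfies the same first-order sentences of the language of
groups as the free group of rank 2. -/
def IsElementaryFree (G : Type*) [Group G] : Prop :=
  @Language.ElementarilyEquivalent LGroup G (FreeGroup (Fin 2)) (groupStructure G)
    (groupStructure (FreeGroup (Fin 2)))

end Pool.Agent.EFree
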