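import Pool.Agent.EFree.Defs

/-!
# A countable elementary free group that is not a union of a chain of finitely generated
elementary free subgroups

Let `F` be the free group of rank 2 with first generator `a`, and let `P` be the ultrapower of `F`
over a nonprincipal ultrafilter on `ℕ`.  Let `A` be the class of the constant sequence `a` and `c 0`
the class of the sequence `n ↦ a ^ (n!)`.  By Łoś's theorem `P` is an elementary free group, and by
the downward Löwenheim-Skolem theorem `A` and `c 0` lie in a countable elementary subgroup `K`.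

Suppose that a finitely generated elementary free group `H ≤ K` contains `A` and `c 0`.  In a free
group any two commuting elements `x ≠ 1, y` are powers of one element, so one of `x, y, x y` is the
square of an element commuting with `x`; this is a first-order sentence, so it holds in `H`.
Applying it to `A` and to the class `c m` of `n ↦ a ^ (n! / 2 ^ m)` one obtains inductively that
all the classes `c m` belong to `H`.  The exponent sum of `a` is a homomorphism from `P` to the
additive group of the ultrapower of `ℤ`, a torsion-free abelian group.  The image of `H` is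
finitely generated, hence a Noetherian `ℤ`-module, and contains the classes of `n! / 2 ^ m` for all
`m`; this contradicts the ascending chain condition.
-/

open FirstOrder FirstOrder.Language Filter

namespace Pool.Agent.EFree

/-! ### The first-order sentence used -/

/-- Of two commuting elements `x ≠ 1` and `y`, one of `x`, `y`, `x * y` is the square of an element
commuting with `x`. -/
def Sq (G : Type*) [Group G] : Prop :=
  ∀ x y : G, x ≠ 1 → x * y = y * x → ∃ z : G, z * x = x * z ∧ (x = z * z ∨ y = z * z ∨ x * y = z * z)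

abbrev tmul {α : Type*} (s t : LGroup.Term α) : LGroup.Term α :=
  Term.func (GroupOp.mul : LGroup.Functions 2) ![s, t]

abbrev tone {α : Type*} : LGroup.Term α :=
  Term.func (GroupOp.one : LGroup.Functions 0) ![]

def X0 : LGroup.Term (Empty ⊕ Fin 3) := Term.var (Sum.inr 0)
def X1 : LGroup.Term (Empty ⊕ Fin 3) := Term.var (Sum.inr 1)
def X2 : LGroup.Term (Empty ⊕ Fin 3) := Term.var (Sum.inr 2)
def Y0 : LGroup.Term (Empty ⊕ Fin 2) := Term.var (Sum.inr 0)
def Y1 : LGroup.Term (Empty ⊕ Fin 2) := Term.var (Sum.inr 1)

/-- The sentence expressing `Sq`. -/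
def sqSentence : LGroup.Sentence :=
  BoundedFormula.all (BoundedFormula.all
    ((∼ (Y0 =' tone)) ⟹ ((tmul Y0 Y1 =' tmul Y1 Y0) ⟹
      (BoundedFormula.ex ((tmul X2 X0 =' tmul X0 X2) ⊓
        ((X0 =' tmul X2 X2) ⊔ ((X1 =' tmul X2 X2) ⊔ (tmul X0 X1 =' tmul X2 X2))))))))

theorem realize_sqSentence (G : Type*) [Group G] :
    (@Sentence.Realize LGroup G (groupStructure G) sqSentence) ↔ Sq G := by
  let _ := groupStructure G
  unfold sqSentence Sq Sentence.Realize Formula.Realize
  simp only [BoundedFormula.realize_all, BoundedFormula.realize_imp, BoundedFormula.realize_not,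
    BoundedFormula.realize_ex, BoundedFormula.realize_inf, BoundedFormula.realize_sup,
    BoundedFormula.realize_bdEqual]
  constructor
  · intro h x y
    have := h x y
    simpa [Fin.snoc, X0, X1, X2, Y0, Y1, Term.realize, Structure.funMap] using this
  · intro h x y
    have := h x y
    simpa [Fin.snoc, X0, X1, X2, Y0, Y1, Term.realize, Structure.funMap] using this

/-! ### Commuting elements of free groups -/

theorem freeGroup_comm_subsingleton (X : Type) (h : ∀ a b : FreeGroup X, a * b = b * a) :
    Subsingleton X := by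
  classical
  constructor
  intro i j
  by_contra hij
  have := congrArg (FreeGroup.lift (fun x : X => if x = i then (Equiv.swap (0 : Fin 3) 1) else
    (Equiv.swap (1 : Fin 3) 2))) (h (FreeGroup.of i) (FreeGroup.of j))
  simp only [map_mul, FreeGroup.lift_apply_of, if_true, Ne.symm hij, if_false] at this
  have h2 := congrArg (fun e : Equiv.Perm (Fin 3) => e 0) this
  revert h2
  decide

theorem free_comm_cyclic (K : Type) [Group K] [IsFreeGroup K] (h : ∀ a b : K, a * b = b * a) :
    ∃ c : K, ∀ g : K, g ∈ Subgroup.zpowers c := by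
  classical
  have e := IsFreeGroup.toFreeGroup K
  have hX : Subsingleton (IsFreeGroup.Generators K) := by
    apply freeGroup_comm_subsingleton
    intro a b
    apply e.symm.injective
    simp [h]
  rcases isEmpty_or_nonempty (IsFreeGroup.Generators K) with hE | ⟨⟨x⟩⟩
  · refine ⟨1, fun g => ?_⟩
    have : g = 1 := by
      apply e.injective
      have : Subsingleton (FreeGroup (IsFreeGroup.Generators K)) := inferInstance
      exact Subsingleton.elim _ _
    rw [this]
    exact one_mem _
  · refine ⟨e.symm (FreeGroup.of x), fun g => ?_⟩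
    have h1 : e g ∈ Subgroup.closure (Set.range (FreeGroup.of (α := IsFreeGroup.Generators K))) := by
      rw [FreeGroup.closure_range_of]; trivial
    have h2 : Set.range (FreeGroup.of (α := IsFreeGroup.Generators K)) = {FreeGroup.of x} := by
      ext y
      constructor
      · rintro ⟨z, rfl⟩
        rw [Subsingleton.elim z x]; rfl
      · rintro rfl
        exact ⟨x, rfl⟩
    rw [h2, ← Subgroup.zpowers_eq_closure, Subgroup.mem_zpowers_iff] at h1
    obtain ⟨k, hk⟩ := h1
    rw [Subgroup.mem_zpowers_iff]
    refine ⟨k, ?_⟩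
    apply e.injective
    simp [hk]

theorem exists_zpow_of_comm {F : Type} [Group F] [IsFreeGroup F] (x y : F) (h : x * y = y * x) :
    ∃ c : F, ∃ s t : ℤ, x = c ^ s ∧ y = c ^ t := by
  have hc : ∀ u ∈ ({x, y} : Set F), ∀ v ∈ ({x, y} : Set F), u * v = v * u := by
    rintro u (rfl | rfl) v (rfl | rfl) <;> simp [h]
  let K := Subgroup.closure ({x, y} : Set F)
  have hK : ∀ a b : K, a * b = b * a := by
    have := Subgroup.isMulCommutative_closure hc
    intro a b
    exact this.is_comm.comm a b
  obtain ⟨c, hc'⟩ := free_comm_cyclic K hK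
  obtain ⟨s, hs⟩ := Subgroup.mem_zpowers_iff.1 (hc' ⟨x, Subgroup.subset_closure (by simp)⟩)
  obtain ⟨t, ht⟩ := Subgroup.mem_zpowers_iff.1 (hc' ⟨y, Subgroup.subset_closure (by simp)⟩)
  refine ⟨c, s, t, ?_, ?_⟩
  · have := congrArg (fun k : K => (k : F)) hs
    simpa using this.symm
  · have := congrArg (fun k : K => (k : F)) ht
    simpa using this.symm

theorem sq_free (F : Type) [Group F] [IsFreeGroup F] : Sq F := by
  intro x y _ hxy
  obtain ⟨c, s, t, rfl, rfl⟩ := exists_zpow_of_comm x y hxy
  rcases Int.even_or_odd s with ⟨k, hk⟩ | hs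
  · refine ⟨c ^ k, ?_, Or.inl ?_⟩
    · rw [← zpow_add, ← zpow_add, add_comm]
    · rw [hk, zpow_add]
  · rcases Int.even_or_odd t with ⟨k, hk⟩ | ht
    · refine ⟨c ^ k, ?_, Or.inr (Or.inl ?_)⟩
      · rw [← zpow_add, ← zpow_add, add_comm]
      · rw [hk, zpow_add]
    · obtain ⟨k, hk⟩ := hs.add_odd ht
      refine ⟨c ^ k, ?_, Or.inr (Or.inr ?_)⟩
      · rw [← zpow_add, ← zpow_add, add_comm]
      · rw [← zpow_add, hk, zpow_add]

/-! ### The free group of rank two and its first generator -/

abbrev F2 := FreeGroup (Fin 2)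

/-- The first generator of `F_2`. -/
def ga : F2 := FreeGroup.of 0

/-- The exponent sum of the first generator. -/
def expo : F2 →* Multiplicative ℤ :=
  FreeGroup.lift (fun i => if i = 0 then Multiplicative.ofAdd 1 else 1)

theorem expo_ga_zpow (k : ℤ) : (expo (ga ^ k)).toAdd = k := by
  simp [expo, ga, map_zpow]

theorem ga_zpow_inj {j k : ℤ} (h : ga ^ j = ga ^ k) : j = k := by
  have := congrArg (fun g => (expo g).toAdd) h
  simpa only [expo_ga_zpow] using this

theorem mem_zpowers_ga_of_comm (z : F2) (h : z * ga = ga * z) : ∃ j : ℤ, z = ga ^ j := by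
  obtain ⟨c, s, t, hs, ht⟩ := exists_zpow_of_comm z ga h
  have h1 : (1 : ℤ) = t * (expo c).toAdd := by
    have := congrArg (fun g => (expo g).toAdd) ht
    have h2 := expo_ga_zpow 1
    rw [zpow_one] at h2
    simp only [h2, map_zpow] at this
    simpa using this
  have h3 : t = 1 ∨ t = -1 := Int.isUnit_iff.1 (IsUnit.of_mul_eq_one _ h1.symm)
  rcases h3 with rfl | rfl
  · refine ⟨s, ?_⟩
    rw [ht, hs]; simp
  · refine ⟨-s, ?_⟩
    rw [ht, hs]; simp

/-! ### The ultrapower -/

/-- A nonprincipal ultrafilter on `ℕ`. -/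
noncomputable abbrev U : Ultrafilter ℕ := hyperfilter ℕ

/-- The ultrapower of `F_2`. -/
abbrev G0 := Germ (U : Filter ℕ) F2

/-- The class of `n ↦ a ^ (n! / 2 ^ m)`. -/
noncomputable def c (m : ℕ) : G0 :=
  ((fun n : ℕ => ga ^ ((n.factorial / 2 ^ m : ℕ) : ℤ) : ℕ → F2) : G0)

/-- The class of the constant sequence `a`. -/
noncomputable def A : G0 := ((fun _ : ℕ => ga : ℕ → F2) : G0)

theorem A_ne_one : A ≠ 1 := by
  intro h
  have h' : ∀ᶠ n : ℕ in (U : Filter ℕ), ga = 1 := by
    have : ((fun _ : ℕ => ga : ℕ → F2) : G0) = ((fun _ : ℕ => 1 : ℕ → F2) : G0) := h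
    exact Germ.coe_eq.1 this
  obtain ⟨n, hn⟩ := h'.exists
  have h3 : ga ^ (1:ℤ) = ga ^ (0:ℤ) := by simpa using hn
  have := ga_zpow_inj h3
  omega

theorem A_comm_c (m : ℕ) : A * c m = c m * A := by
  unfold A c
  rw [← Germ.coe_mul, ← Germ.coe_mul]
  apply Germ.coe_eq.2
  apply Eventually.of_forall
  intro n
  exact ((Commute.refl ga).zpow_right _).eq

theorem eventually_large (m : ℕ) : ∀ᶠ n : ℕ in (U : Filter ℕ), 2 ^ m ≤ n := by
  have : ∀ᶠ n : ℕ in cofinite, 2 ^ m ≤ n := by
    rw [Nat.cofinite_eq_atTop]
    exact eventually_ge_atTop _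
  exact this.filter_mono (hyperfilter_le_cofinite)

theorem step {z : G0} {m : ℕ} (hz : z * A = A * z)
    (h : A = z * z ∨ c m = z * z ∨ A * c m = z * z) : z = c (m + 1) := by
  induction z using Germ.inductionOn with
  | _ f =>
  unfold A c at *
  rw [← Germ.coe_mul, ← Germ.coe_mul] at hz
  have hz' := Germ.coe_eq.1 hz
  have hlarge := eventually_large (m + 2)
  have hdvd : ∀ n, 2 ^ (m + 2) ≤ n → 2 ^ (m + 2) ∣ n.factorial := by
    intro n hn
    exact Nat.dvd_factorial (by positivity) hn
  apply Germ.coe_eq.2
  rcases h with h | h | h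
  · exfalso
    rw [← Germ.coe_mul] at h
    obtain ⟨n, hn1, hn2⟩ := (hz'.and (Germ.coe_eq.1 h)).exists
    obtain ⟨j, hj⟩ := mem_zpowers_ga_of_comm _ hn1
    simp only [Pi.mul_apply] at hn2
    rw [hj, ← zpow_add] at hn2
    have := ga_zpow_inj (j := 1) (by simpa using hn2)
    omega
  · rw [← Germ.coe_mul] at h
    filter_upwards [hz', Germ.coe_eq.1 h, hlarge] with n hn1 hn2 hn3
    obtain ⟨j, hj⟩ := mem_zpowers_ga_of_comm _ hn1
    simp only [Pi.mul_apply] at hn2
    rw [hj, ← zpow_add] at hn2
    have h4 := ga_zpow_inj hn2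
    rw [hj]
    congr 1
    obtain ⟨q, hq⟩ := hdvd n hn3
    have e1 : n.factorial / 2 ^ m = 4 * q := by
      rw [hq]
      have : 2 ^ (m + 2) * q = 2 ^ m * (4 * q) := by ring
      rw [this]
      exact Nat.mul_div_cancel_left _ (by positivity)
    have e2 : n.factorial / 2 ^ (m + 1) = 2 * q := by
      rw [hq]
      have : 2 ^ (m + 2) * q = 2 ^ (m + 1) * (2 * q) := by ring
      rw [this]
      exact Nat.mul_div_cancel_left _ (by positivity)
    rw [e1] at h4
    rw [e2]
    push_cast at *
    omega
  · exfalso
    rw [← Germ.coe_mul, ← Germ.coe_mul] at h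
    obtain ⟨n, ⟨hn1, hn2⟩, hn3⟩ := ((hz'.and (Germ.coe_eq.1 h)).and hlarge).exists
    obtain ⟨j, hj⟩ := mem_zpowers_ga_of_comm _ hn1
    simp only [Pi.mul_apply] at hn2
    rw [hj, ← zpow_add, ← zpow_one_add] at hn2
    have h4 := ga_zpow_inj hn2
    obtain ⟨q, hq⟩ := hdvd n hn3
    have e1 : n.factorial / 2 ^ m = 4 * q := by
      rw [hq]
      have : 2 ^ (m + 2) * q = 2 ^ m * (4 * q) := by ring
      rw [this]
      exact Nat.mul_div_cancel_left _ (by positivity)
    rw [e1] at h4
    push_cast at h4
    omega

/-- The homomorphism from the ultrapower of `F_2` to the additive group of the ultrapower of `ℤ`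
given by the exponent sum of the first generator. -/
noncomputable def E : G0 →* Multiplicative (Germ (U : Filter ℕ) ℤ) where
  toFun g := Multiplicative.ofAdd (g.map (fun x => (expo x).toAdd))
  map_one' := by
    have : (1 : G0) = ((fun _ : ℕ => 1 : ℕ → F2) : G0) := rfl
    rw [this, Germ.map_coe]
    apply congrArg
    apply Germ.coe_eq.2
    apply Eventually.of_forall
    intro n
    simp
  map_mul' := by
    intro x y
    induction x using Germ.inductionOn with
    | _ f =>
    induction y using Germ.inductionOn with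
    | _ g =>
    rw [← Germ.coe_mul, Germ.map_coe, Germ.map_coe, Germ.map_coe, ← ofAdd_add, ← Germ.coe_add]
    apply congrArg
    apply Germ.coe_eq.2
    apply Eventually.of_forall
    intro n
    simp

/-- No finitely generated group satisfying `Sq` embeds in the ultrapower with both `A` and `c 0` in
its image. -/
theorem core (H : Type) [Group H] [Group.FG H] (j : H →* G0) (hj : Function.Injective j)
    (hA : ∃ x, j x = A) (hB : ∃ y, j y = c 0) (hΨ : Sq H) : False := by
  have hall : ∀ m, ∃ y, j y = c m := by
    intro m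
    induction m with
    | zero => exact hB
    | succ m ih =>
      obtain ⟨x, hx⟩ := hA
      obtain ⟨y, hy⟩ := ih
      have hx1 : x ≠ 1 := by
        rintro rfl
        rw [map_one] at hx
        exact A_ne_one hx.symm
      have hxy : x * y = y * x := by
        apply hj
        rw [map_mul, map_mul, hx, hy]
        exact A_comm_c m
      obtain ⟨z, hz1, hz2⟩ := hΨ x y hx1 hxy
      refine ⟨z, ?_⟩
      apply step (m := m)
      · rw [← hx, ← map_mul, hz1, map_mul]
      · rcases hz2 with h | h | h
        · left; rw [← hx, ← map_mul, ← h]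
        · right; left; rw [← hy, ← map_mul, ← h]
        · right; right; rw [← hx, ← hy, ← map_mul, ← map_mul, ← h]
  let T := Germ (U : Filter ℕ) ℤ
  let ψ : H →* Multiplicative T := E.comp j
  obtain ⟨S, hS⟩ := (Group.FG.out : (⊤ : Subgroup H).FG)
  let N : Submodule ℤ T := Submodule.span ℤ ((fun h => (ψ h).toAdd) '' (S : Set H))
  have hN : ∀ h : H, (ψ h).toAdd ∈ N := by
    intro h
    have hh : h ∈ Subgroup.closure (S : Set H) := by rw [hS]; trivial
    induction hh using Subgroup.closure_induction with
    | mem x hx => exact Submodule.subset_span ⟨x, hx, rfl⟩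
    | one => simp
    | mul x y _ _ hx hy =>
      rw [map_mul, toAdd_mul]
      exact N.add_mem hx hy
    | inv x _ hx =>
      rw [map_inv, toAdd_inv]
      exact N.neg_mem hx
  have hfin : N.FG := by
    refine ⟨(S.image (fun h => (ψ h).toAdd)), ?_⟩
    simp [N]
  have hnoeth : IsNoetherian ℤ N := isNoetherian_of_fg_of_noetherian N hfin
  let κ : ℕ → T := fun m => ((fun n : ℕ => ((n.factorial / 2 ^ m : ℕ) : ℤ) : ℕ → ℤ) : T)
  have hκ : ∀ m, κ m ∈ N := by
    intro m
    obtain ⟨y, hy⟩ := hall m
    have := hN y
    have h2 : (ψ y).toAdd = κ m := by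
      show (E (j y)).toAdd = κ m
      rw [hy]
      show (Germ.map (fun x => (expo x).toAdd) (c m)) = κ m
      unfold c
      rw [Germ.map_coe]
      apply Germ.coe_eq.2
      apply Eventually.of_forall
      intro n
      simp only [Function.comp]
      rw [expo_ga_zpow]
    rw [h2] at this
    exact this
  have hdbl : ∀ m, κ m = (2 : ℤ) • κ (m + 1) := by
    intro m
    show ((fun n : ℕ => ((n.factorial / 2 ^ m : ℕ) : ℤ) : ℕ → ℤ) : T) =
      (2 : ℤ) • ((fun n : ℕ => ((n.factorial / 2 ^ (m+1) : ℕ) : ℤ) : ℕ → ℤ) : T)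
    rw [← Germ.coe_smul]
    apply Germ.coe_eq.2
    filter_upwards [eventually_large (m + 1)] with n hn
    obtain ⟨q, hq⟩ : 2 ^ (m + 1) ∣ n.factorial := Nat.dvd_factorial (by positivity) hn
    have e1 : n.factorial / 2 ^ m = 2 * q := by
      rw [hq]
      have : 2 ^ (m + 1) * q = 2 ^ m * (2 * q) := by ring
      rw [this]
      exact Nat.mul_div_cancel_left _ (by positivity)
    have e2 : n.factorial / 2 ^ (m + 1) = q := by
      rw [hq]
      exact Nat.mul_div_cancel_left _ (by positivity)
    simp only [Pi.smul_apply, e1, e2, smul_eq_mul]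
    push_cast
    ring
  let κ' : ℕ → N := fun m => ⟨κ m, hκ m⟩
  have hdbl' : ∀ m, κ' m = (2 : ℤ) • κ' (m + 1) := by
    intro m
    apply Subtype.ext
    exact hdbl m
  let ch : ℕ →o Submodule ℤ N := ⟨fun m => Submodule.span ℤ {κ' m}, by
    apply monotone_nat_of_le_succ
    intro m
    rw [Submodule.span_singleton_le_iff_mem, hdbl' m]
    exact Submodule.smul_mem _ _ (Submodule.mem_span_singleton_self _)⟩
  obtain ⟨m, hm⟩ := monotone_stabilizes_iff_noetherian.2 hnoeth ch
  have h1 : κ' (m + 1) ∈ ch m := by
    rw [hm (m + 1) (by omega)]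
    exact Submodule.mem_span_singleton_self _
  obtain ⟨k, hk⟩ := Submodule.mem_span_singleton.1 h1
  have hk' : (k : ℤ) • κ m = κ (m + 1) := congrArg Subtype.val hk
  have hk2 : ((fun n : ℕ => k • (((n.factorial / 2 ^ m : ℕ) : ℤ)) : ℕ → ℤ) : T) =
      ((fun n : ℕ => ((n.factorial / 2 ^ (m+1) : ℕ) : ℤ) : ℕ → ℤ) : T) := hk'
  obtain ⟨n, hn1, hn2⟩ := ((Germ.coe_eq.1 hk2).and (eventually_large (m + 1))).exists
  obtain ⟨q, hq⟩ : 2 ^ (m + 1) ∣ n.factorial := Nat.dvd_factorial (by positivity) hn2
  have e1 : n.factorial / 2 ^ m = 2 * q := by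
    rw [hq]
    have : 2 ^ (m + 1) * q = 2 ^ m * (2 * q) := by ring
    rw [this]
    exact Nat.mul_div_cancel_left _ (by positivity)
  have e2 : n.factorial / 2 ^ (m + 1) = q := by
    rw [hq]
    exact Nat.mul_div_cancel_left _ (by positivity)
  have hq0 : q ≠ 0 := by
    rintro rfl
    have := Nat.factorial_pos n
    omega
  simp only [e1, e2, smul_eq_mul] at hn1
  push_cast at hn1
  have h5 : (q : ℤ) * (2 * k - 1) = 0 := by linarith
  rcases mul_eq_zero.1 h5 with h | h
  · exact hq0 (by exact_mod_cast h)
  · omega

/-! ### Elementary equivalence -/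

theorem structure_ext {G : Type} [Group G] (S : LGroup.Structure G)
    (h : ∀ {n : ℕ} (f : LGroup.Functions n) (x : Fin n → G), @Structure.funMap LGroup G S n f x =
      @Structure.funMap LGroup G (groupStructure G) n f x) : S = groupStructure G := by
  ext n
  · exact h _ _
  · rename_i x y
    exact nomatch x

theorem isElementaryFree_iff (G : Type*) [Group G] : IsElementaryFree G ↔ ∀ φ : LGroup.Sentence,
    (@Sentence.Realize LGroup G (groupStructure G) φ) ↔
      (@Sentence.Realize LGroup F2 (groupStructure F2) φ) := by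
  unfold IsElementaryFree
  let _ : LGroup.Structure F2 := groupStructure F2
  let _ : LGroup.Structure G := groupStructure G
  exact elementarilyEquivalent_iff

theorem sq_of_isElementaryFree (H : Type) [Group H] (h : IsElementaryFree H) : Sq H := by
  have h1 := (isElementaryFree_iff H).1 h sqSentence
  rw [realize_sqSentence, realize_sqSentence] at h1
  exact h1.2 (sq_free F2)

theorem G0_elementaryFree : IsElementaryFree G0 := by
  let _ : LGroup.Structure F2 := groupStructure F2
  let S : LGroup.Structure G0 :=
    (Ultraproduct.structure : LGroup.Structure ((U : Filter ℕ).Product (fun _ : ℕ => F2)))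
  have h1 : ∀ φ : LGroup.Sentence, (@Sentence.Realize LGroup G0 S φ) ↔ F2 ⊨ φ := by
    intro φ
    have := Ultraproduct.sentence_realize (u := U) (L := LGroup) (M := fun _ : ℕ => F2) φ
    rw [eventually_const] at this
    exact this
  have h2 : S = groupStructure G0 := by
    apply structure_ext
    intro n f x
    have hx : ∃ y : Fin n → (ℕ → F2), x = fun i => ((y i : ℕ → F2) : G0) := by
      refine ⟨fun i => (Quotient.out (x i)), ?_⟩
      funext i
      exact (Quotient.out_eq (x i)).symm
    obtain ⟨y, rfl⟩ := hx
    have := Ultraproduct.funMap_cast (u := U) (L := LGroup) (M := fun _ : ℕ => F2) f y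
    refine this.trans ?_
    cases f with
    | mul => rfl
    | inv => rfl
    | one => rfl
  rw [h2] at h1
  rw [isElementaryFree_iff]
  exact h1

theorem infinite_G0 : Infinite G0 := by
  apply Infinite.of_injective (fun m : ℤ => ((fun _ : ℕ => ga ^ m : ℕ → F2) : G0))
  intro j k h
  obtain ⟨n, hn⟩ := (Germ.coe_eq.1 h).exists
  exact ga_zpow_inj hn

theorem card_LGroup : LGroup.card ≤ Cardinal.aleph0 := by
  have h1 : Countable (Σ l, LGroup.Functions l) := by
    have : Countable (Σ l, GroupOp l) := by
      have hinj : Function.Injective (fun x : (Σ l, GroupOp l) => (x.1 : ℕ)) := by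
        rintro ⟨_, x⟩ ⟨_, y⟩ h
        cases x <;> cases y <;> first | rfl | (exfalso; revert h; decide)
      exact hinj.countable
    exact this
  have h2 : Countable (Σ l, LGroup.Relations l) := by
    have : IsEmpty (Σ l, LGroup.Relations l) := ⟨fun x => Empty.elim x.2⟩
    infer_instance
  unfold Language.card Language.Symbols
  rw [Cardinal.mk_le_aleph0_iff]
  infer_instance

/-- Any two elements of the ultrapower lie in a countable elementary free subgroup. -/
theorem exists_countable (u v : G0) : ∃ K : Subgroup G0, Countable K ∧ u ∈ K ∧ v ∈ K ∧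
    IsElementaryFree K := by
  let _ : LGroup.Structure G0 := groupStructure G0
  have hcard : Cardinal.lift.{0} LGroup.card ≤ Cardinal.lift.{0} Cardinal.aleph0 := by
    simpa using card_LGroup
  obtain ⟨S, hS1, hS2⟩ := exists_elementarySubstructure_card_eq LGroup (M := G0) {u, v}
    Cardinal.aleph0.{0} le_rfl (by simp) hcard
    (by have := infinite_G0; simp)
  let K : Subgroup G0 :=
    { carrier := (S : Set G0)
      mul_mem' := by
        intro a b ha hb
        have := S.toSubstructure.fun_mem (GroupOp.mul : LGroup.Functions 2) ![a, b]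
          (by intro i; fin_cases i <;> assumption)
        exact this
      one_mem' := by
        have := S.toSubstructure.fun_mem (GroupOp.one : LGroup.Functions 0) ![]
          (by intro i; exact i.elim0)
        exact this
      inv_mem' := by
        intro a ha
        have := S.toSubstructure.fun_mem (GroupOp.inv : LGroup.Functions 1) ![a]
          (by intro i; fin_cases i; assumption)
        exact this }
  refine ⟨K, ?_, hS1 (by simp), hS1 (by simp), ?_⟩
  · have : Countable S := by
      rw [← Cardinal.mk_le_aleph0_iff]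
      simpa using hS2.le
    exact this
  · rw [isElementaryFree_iff]
    have hG := (isElementaryFree_iff G0).1 G0_elementaryFree
    intro φ
    rw [← hG φ]
    have h3 : (@Sentence.Realize LGroup S _ φ) ↔
        (@Sentence.Realize LGroup G0 (groupStructure G0) φ) := by
      exact (S.realize_sentence φ)
    rw [← h3]
    have h4 : (inferInstance : LGroup.Structure S) = groupStructure K := by
      apply structure_ext (G := K)
      intro n f x
      cases f with
      | mul => rfl
      | inv => rfl
      | one => rfl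
    rw [← h4]
    rfl

/-- There is a countable elementary free group with two elements that do not lie in any common
finitely generated elementary free subgroup. -/
theorem exists_pair : ∃ (G : Type) (_ : Group G), Countable G ∧ IsElementaryFree G ∧
    ∃ a b : G, a * b = b * a ∧ ∀ H : Subgroup G, H.FG → IsElementaryFree H → ¬ (a ∈ H ∧ b ∈ H) := by
  obtain ⟨K, hK1, hK2, hK3, hK4⟩ := exists_countable A (c 0)
  refine ⟨K, inferInstance, hK1, hK4, ⟨A, hK2⟩, ⟨c 0, hK3⟩, Subtype.ext (A_comm_c 0), ?_⟩
  rintro H hfg hel ⟨hA, hB⟩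
  have : Group.FG H := (Group.fg_iff_subgroup_fg H).2 hfg
  refine core H (K.subtype.comp H.subtype) ?_ ⟨⟨_, hA⟩, rfl⟩ ⟨⟨_, hB⟩, rfl⟩
    (sq_of_isElementaryFree H hel)
  exact K.subtype_injective.comp H.subtype_injective

end Pool.Agent.EFree
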